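import Pool.Agent.P8H39.TI.Stm2

/-!
# Project TI, package STAR
-/

set_option autoImplicit false

namespace Pool.Agent.P8H46.TI

open Finset Pool.Agent.P8H39.TI

lemma asc_real (n k : ℕ) : (n.ascFactorial k : ℝ) = ∏ i ∈ range k, ((n : ℝ) + i) := by
  rw [Nat.ascFactorial_eq_prod_range]
  push_cast
  rfl

/-- products starting at `x` and at `x + 1` -/
lemma prod_shift (x : ℝ) (k : ℕ) :
    (∏ i ∈ range k, (x + 1 + i)) * x = (∏ i ∈ range k, (x + i)) * (x + k) := by
  rw [← prod_range_succ, prod_range_succ']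
  simp only [Nat.cast_zero, add_zero]
  congr 1
  refine prod_congr rfl fun i _ => ?_
  push_cast
  ring

lemma star_one (hC : S_CHU) (t κ N : ℕ) (hκ : 2 ≤ κ) (hN : (t + 1) * (κ - 1) + 1 ≤ N) :
    (κ : ℝ) * ((t : ℝ) + 1) * ((N : ℝ) + κ + (t + 1) + 1) * ((N + κ + t).descFactorial t : ℝ) ≤
      2 * (1 + TT (t + 1) 1 κ N) * ((N + (t + 1)).descFactorial (t + 1 + 1) : ℝ) := by
  have hTT : 1 + TT (t + 1) 1 κ N = ∏ u ∈ range (t + 1), ((N : ℝ) + κ + u) / ((N : ℝ) + u) := by
    rw [← hC.1 (t + 1) κ N (by omega), sum_range_succ', TT, add_comm]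
    congr 1
    · refine sum_congr rfl fun a _ => ?_
      have e1 : 1 + a - 1 = a := by omega
      have e2 : t + 1 + 1 - 1 = t + 1 := by omega
      have e3 : (N + a).descFactorial (1 + a) = N.ascFactorial (a + 1) := by
        rw [← Nat.add_descFactorial_eq_ascFactorial', add_comm 1 a]
        rfl
      rw [e1, e2, e3, Nat.choose_self, add_comm 1 a]
      simp
    · simp
  obtain ⟨k', rfl⟩ : ∃ k', κ = k' + 2 := ⟨κ - 2, by omega⟩
  obtain ⟨d, rfl⟩ : ∃ d, N = (t + 1) * (k' + 1) + 1 + d := ⟨N - ((t + 1) * (k' + 1) + 1), by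
    have : (t + 1) * (k' + 2 - 1) = (t + 1) * (k' + 1) := rfl
    omega⟩
  set N := (t + 1) * (k' + 1) + 1 + d with hNdef
  have hNr : (N : ℝ) = ((t : ℝ) + 1) * (k' + 1) + 1 + d := by
    rw [hNdef]
    push_cast
    ring
  have hNpos : (0 : ℝ) < N := by
    rw [hNr]
    positivity
  have e1 : (N + (t + 1)).descFactorial (t + 1 + 1) = N.ascFactorial (t + 1 + 1) :=
    Nat.add_descFactorial_eq_ascFactorial' N (t + 1 + 1)
  have e2 : (N + (k' + 2) + t).descFactorial t = (N + (k' + 2) + 1).ascFactorial t :=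
    Nat.add_descFactorial_eq_ascFactorial _ _
  rw [hTT, e1, e2, asc_real, asc_real, prod_range_succ _ (t + 1), prod_div_distrib]
  have hP : (∏ u ∈ range (t + 1), ((N : ℝ) + u)) ≠ 0 :=
    (prod_pos fun u _ => by positivity).ne'
  have e3 : (∏ u ∈ range (t + 1), ((N : ℝ) + ((k' + 2 : ℕ) : ℝ) + u)) =
      (∏ i ∈ range t, (((N + (k' + 2) + 1 : ℕ) : ℝ) + i)) * ((N : ℝ) + ((k' + 2 : ℕ) : ℝ)) := by
    rw [prod_range_succ', Nat.cast_zero, add_zero]
    congr 1
    refine prod_congr rfl fun i _ => ?_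
    push_cast
    ring
  rw [e3]
  set Q := ∏ i ∈ range t, (((N + (k' + 2) + 1 : ℕ) : ℝ) + i) with hQ
  have hQ0 : 0 ≤ Q := prod_nonneg fun i _ => by positivity
  have key : ((k' + 2 : ℕ) : ℝ) * ((t : ℝ) + 1) * ((N : ℝ) + ((k' + 2 : ℕ) : ℝ) + (t + 1) + 1) ≤
      2 * ((N : ℝ) + ((k' + 2 : ℕ) : ℝ)) * ((N : ℝ) + ((t + 1 : ℕ) : ℝ)) := by
    rw [hNr]
    push_cast
    rw [← sub_nonneg]
    ring_nf
    positivity
  calc _ ≤ 2 * ((N : ℝ) + ((k' + 2 : ℕ) : ℝ)) * ((N : ℝ) + ((t + 1 : ℕ) : ℝ)) * Q :=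
        mul_le_mul_of_nonneg_right key hQ0
    _ = _ := by
        field_simp

lemma star_two (hC : S_CHU) (t m j N : ℕ) (hN : (t + 1) * (m + 2 + j - 1) + 1 ≤ N) :
    ((m + 2 + j).descFactorial (m + 2) : ℝ) * ((t + (m + 2)).choose (m + 2) : ℝ) *
        ((N : ℝ) + (m + 2 + j) + (t + 1) + 1) * ((N + j + t + 1).descFactorial t : ℝ) ≤
      2 * (1 + TT (t + 1) (m + 2) (m + 2 + j) N) *
        ((N + (t + 1)).descFactorial (t + 1 + (m + 2)) : ℝ) := by
  obtain ⟨d, rfl⟩ : ∃ d, N = (t + 1) * (m + 1 + j) + 1 + d := ⟨N - ((t + 1) * (m + 1 + j) + 1), by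
    have : m + 2 + j - 1 = m + 1 + j := by omega
    rw [this] at hN
    omega⟩
  set N := (t + 1) * (m + 1 + j) + 1 + d with hNdef
  have hNr : (N : ℝ) = ((t : ℝ) + 1) * (m + 1 + j) + 1 + d := by
    rw [hNdef]
    push_cast
    ring
  have hmN : m + 2 ≤ N := by
    rw [hNdef]
    nlinarith
  have hNpos : (0 : ℝ) < N := by
    rw [hNr]
    positivity
  have hD : (0 : ℝ) < (N.descFactorial (m + 2) : ℝ) := by
    exact_mod_cast Nat.descFactorial_pos.2 hmN
  set u : ℕ → ℝ := fun a => (t.choose a : ℝ) * (j.descFactorial a : ℝ) / ((N + 1).ascFactorial a : ℝ) with hu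
  set K : ℝ := ((t + (m + 2)).choose (m + 2) : ℝ) * ((m + 2 + j).descFactorial (m + 2) : ℝ) /
    (N.descFactorial (m + 2) : ℝ) with hK
  have hu0 : ∀ a, 0 ≤ u a := fun a => by
    rw [hu]
    positivity
  have hK0 : 0 ≤ K := by
    rw [hK]
    positivity
  -- the terms
  have hterm : ∀ a, ((m + 2 + a - 1).choose a : ℝ) * ((t + 1 + (m + 2) - 1).choose (m + 2 + a) : ℝ) *
      ((m + 2 + j).descFactorial (m + 2 + a) : ℝ) / ((N + a).descFactorial (m + 2 + a) : ℝ) =
      K * (u a * (((m : ℝ) + 2) / ((m : ℝ) + 2 + a))) := by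
    intro a
    have e0 : m + 2 + a - 1 = m + 1 + a := by omega
    have e1 : t + 1 + (m + 2) - 1 = t + (m + 2) := by omega
    have h1 : (m + 2 + a) * (m + 1 + a).choose a = (m + 2) * (m + 2 + a).choose (m + 2) := by
      have h2 := Nat.add_one_mul_choose_eq (m + 1 + a) (m + 1)
      have h3 : (m + 1 + a).choose (m + 1) = (m + 1 + a).choose a := Nat.choose_symm_add
      rw [h3] at h2
      have h4 : m + 1 + a + 1 = m + 2 + a := by omega
      have h5 : m + 1 + 1 = m + 2 := rfl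
      rw [h4, h5] at h2
      rw [h2]
      ring
    have h2 : (t + (m + 2)).choose (m + 2 + a) * (m + 2 + a).choose (m + 2) =
        (t + (m + 2)).choose (m + 2) * t.choose a := by
      have h3 := Nat.choose_mul (n := t + (m + 2)) (k := m + 2 + a) (s := m + 2) (by omega)
      rwa [Nat.add_sub_cancel, Nat.add_sub_cancel_left] at h3
    have h3 : j.descFactorial a * (m + 2 + j).descFactorial (m + 2) =
        (m + 2 + j).descFactorial (m + 2 + a) := by
      have h4 := Nat.descFactorial_mul_descFactorial (k := m + 2) (m := m + 2 + a) (n := m + 2 + j)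
        (by omega)
      rwa [Nat.add_sub_cancel_left, Nat.add_sub_cancel_left] at h4
    have h4 : N.descFactorial (m + 2) * (N + 1).ascFactorial a = (N + a).descFactorial (m + 2 + a) := by
      have h5 := Nat.descFactorial_mul_descFactorial (k := a) (m := m + 2 + a) (n := N + a) (by omega)
      rwa [Nat.add_sub_cancel, Nat.add_sub_cancel, Nat.add_descFactorial_eq_ascFactorial] at h5
    have h1r : ((m : ℝ) + 2 + a) * ((m + 1 + a).choose a : ℝ) = ((m : ℝ) + 2) * ((m + 2 + a).choose (m + 2) : ℝ) := by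
      exact_mod_cast h1
    have h2r : ((t + (m + 2)).choose (m + 2 + a) : ℝ) * ((m + 2 + a).choose (m + 2) : ℝ) =
        ((t + (m + 2)).choose (m + 2) : ℝ) * (t.choose a : ℝ) := by
      exact_mod_cast h2
    rw [e0, e1, ← h3, ← h4, hK, hu]
    have hA : (0 : ℝ) < ((N + 1).ascFactorial a : ℝ) := by
      exact_mod_cast Nat.ascFactorial_pos _ _
    have hM : (0 : ℝ) < (m : ℝ) + 2 + a := by positivity
    push_cast
    have h6 : ((m + 1 + a).choose a : ℝ) * ((t + (m + 2)).choose (m + 2 + a) : ℝ) =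
        ((t + (m + 2)).choose (m + 2) : ℝ) * (t.choose a : ℝ) * (((m : ℝ) + 2) / ((m : ℝ) + 2 + a)) := by
      rw [← mul_div_assoc, eq_div_iff hM.ne']
      calc _ = (((m : ℝ) + 2 + a) * ((m + 1 + a).choose a : ℝ)) * ((t + (m + 2)).choose (m + 2 + a) : ℝ) := by
            ring
        _ = ((m : ℝ) + 2) * (((t + (m + 2)).choose (m + 2 + a) : ℝ) * ((m + 2 + a).choose (m + 2) : ℝ)) := by
            rw [h1r]
            ring
        _ = _ := by
            rw [h2r]
            ring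
    rw [h6]
    field_simp
  have hTT : TT (t + 1) (m + 2) (m + 2 + j) N =
      K * ∑ a ∈ range (t + 1), u a * (((m : ℝ) + 2) / ((m : ℝ) + 2 + a)) := by
    rw [TT, mul_sum]
    exact sum_congr rfl fun a _ => hterm a
  -- the sums
  set U : ℝ := ∏ i ∈ range t, (((N + 1 : ℕ) : ℝ) + j + i) / (((N + 1 : ℕ) : ℝ) + i) with hU
  have hU0 : 0 ≤ U := prod_nonneg fun i _ => by positivity
  have hs1 : ∑ a ∈ range (t + 1), u a = U := hC.1 t j (N + 1) (by omega)
  have hs2 : (∑ a ∈ range (t + 1), (a : ℝ) * u a) * (((N + 1 : ℕ) : ℝ) + j + t - 1) = t * j * U :=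
    hC.2 t j (N + 1) (by omega)
  set W : ℝ := ∑ a ∈ range (t + 1), (a : ℝ) * u a with hW
  have hm2 : (0 : ℝ) < (m : ℝ) + 2 := by positivity
  have hlow : U - W / ((m : ℝ) + 2) ≤ ∑ a ∈ range (t + 1), u a * (((m : ℝ) + 2) / ((m : ℝ) + 2 + a)) := by
    rw [← hs1, hW, sum_div, ← sum_sub_distrib]
    refine sum_le_sum fun a _ => ?_
    have h1 : 1 - (a : ℝ) / ((m : ℝ) + 2) ≤ ((m : ℝ) + 2) / ((m : ℝ) + 2 + a) := by
      rw [le_div_iff₀ (by positivity), sub_mul, div_mul_eq_mul_div, sub_le_iff_le_add, one_mul,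
        ← sub_le_iff_le_add', le_div_iff₀ hm2]
      nlinarith [sq_nonneg (a : ℝ)]
    calc _ = u a * (1 - (a : ℝ) / ((m : ℝ) + 2)) := by ring
      _ ≤ _ := mul_le_mul_of_nonneg_left h1 (hu0 a)
  have hden : (0 : ℝ) < (N : ℝ) + j + t := by positivity
  have hWe : W = t * j * U / ((N : ℝ) + j + t) := by
    rw [eq_div_iff hden.ne', ← hs2]
    push_cast
    ring
  -- the right side
  have e4 : (N + (t + 1)).descFactorial (t + 1 + (m + 2)) =
      N.descFactorial (m + 2) * (N + 1).ascFactorial (t + 1) := by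
    have h5 := Nat.descFactorial_mul_descFactorial (k := t + 1) (m := t + 1 + (m + 2)) (n := N + (t + 1))
      (by omega)
    rw [Nat.add_sub_cancel, Nat.add_sub_cancel_left, Nat.add_descFactorial_eq_ascFactorial] at h5
    exact h5.symm
  have e5 : (N + j + t + 1).descFactorial t = (N + j + 2).ascFactorial t := by
    have h5 := Nat.add_descFactorial_eq_ascFactorial (N + j + 1) t
    rw [← h5]
    congr 1
    ring
  set V : ℝ := ∏ i ∈ range t, ((N : ℝ) + j + 1 + i) with hV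
  have hV0 : 0 ≤ V := prod_nonneg fun i _ => by positivity
  have e6 : ((N + j + 2).ascFactorial t : ℝ) * ((N : ℝ) + j + 1) = V * ((N : ℝ) + j + 1 + t) := by
    rw [asc_real, hV, ← prod_shift]
    congr 1
    refine prod_congr rfl fun i _ => ?_
    push_cast
    ring
  have e7 : U * ((N + 1).ascFactorial (t + 1) : ℝ) = V * ((N : ℝ) + 1 + t) := by
    rw [asc_real, prod_range_succ, hU, prod_div_distrib]
    have hP : (∏ u ∈ range t, (((N + 1 : ℕ) : ℝ) + u)) ≠ 0 :=
      (prod_pos fun u _ => by positivity).ne'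
    have h8 : (∏ i ∈ range t, (((N + 1 : ℕ) : ℝ) + j + i)) = V := by
      rw [hV]
      refine prod_congr rfl fun i _ => ?_
      push_cast
      ring
    rw [h8, ← mul_assoc, div_mul_cancel₀ _ hP]
    push_cast
    ring
  have hA : (0 : ℝ) < ((N + 1).ascFactorial (t + 1) : ℝ) := by
    exact_mod_cast Nat.ascFactorial_pos _ _
  set C : ℝ := ((t + (m + 2)).choose (m + 2) : ℝ) * ((m + 2 + j).descFactorial (m + 2) : ℝ) with hCdef
  have hC0 : 0 ≤ C := by
    rw [hCdef]
    positivity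
  have hKD : K * (N.descFactorial (m + 2) : ℝ) = C := by
    rw [hK]
    field_simp
  have hN1 : (0 : ℝ) < (N : ℝ) + j + 1 := by positivity
  -- the inequality
  have key : ((N : ℝ) + (m + 2 + j) + (t + 1) + 1) * ((N : ℝ) + j + 1 + t) * (((m : ℝ) + 2) * ((N : ℝ) + j + t)) ≤
      2 * ((N : ℝ) + 1 + t) * ((N : ℝ) + j + 1) * (((m : ℝ) + 2) * ((N : ℝ) + j + t) - t * j) := by
    rw [hNr, ← sub_nonneg]
    ring_nf
    positivity
  have key2 : ((N : ℝ) + (m + 2 + j) + (t + 1) + 1) * (((N : ℝ) + j + 1 + t) / ((N : ℝ) + j + 1)) ≤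
      2 * (((N : ℝ) + 1 + t) * (1 - t * j / ((N : ℝ) + j + t) / ((m : ℝ) + 2))) := by
    have h9 : (0 : ℝ) < ((m : ℝ) + 2) * ((N : ℝ) + j + t) := by positivity
    have h10 : 1 - t * j / ((N : ℝ) + j + t) / ((m : ℝ) + 2) =
        (((m : ℝ) + 2) * ((N : ℝ) + j + t) - t * j) / (((m : ℝ) + 2) * ((N : ℝ) + j + t)) := by
      field_simp
    rw [h10, ← mul_div_assoc, ← mul_div_assoc, ← mul_div_assoc, div_le_div_iff₀ hN1 h9]
    linarith [key]
  have hd1 : ((N + j + 2).ascFactorial t : ℝ) = V * (((N : ℝ) + j + 1 + t) / ((N : ℝ) + j + 1)) := by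
    rw [← mul_div_assoc, eq_div_iff hN1.ne', e6]
  calc _ = C * V * (((N : ℝ) + (m + 2 + j) + (t + 1) + 1) * (((N : ℝ) + j + 1 + t) / ((N : ℝ) + j + 1))) := by
        rw [e5, hd1, hCdef]
        ring
    _ ≤ C * V * (2 * (((N : ℝ) + 1 + t) * (1 - t * j / ((N : ℝ) + j + t) / ((m : ℝ) + 2)))) :=
        mul_le_mul_of_nonneg_left key2 (mul_nonneg hC0 hV0)
    _ = 2 * (K * (U - W / ((m : ℝ) + 2))) * ((N.descFactorial (m + 2) : ℝ) * ((N + 1).ascFactorial (t + 1) : ℝ)) := by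
        rw [hWe, ← hKD]
        have h11 : V * ((N : ℝ) + 1 + t) = U * ((N + 1).ascFactorial (t + 1) : ℝ) := e7.symm
        calc _ = 2 * K * (N.descFactorial (m + 2) : ℝ) * (V * ((N : ℝ) + 1 + t)) *
              (1 - t * j / ((N : ℝ) + j + t) / ((m : ℝ) + 2)) := by ring
          _ = _ := by
              rw [h11]
              ring
    _ ≤ 2 * (1 + TT (t + 1) (m + 2) (m + 2 + j) N) * ((N.descFactorial (m + 2) : ℝ) * ((N + 1).ascFactorial (t + 1) : ℝ)) := by
        refine mul_le_mul_of_nonneg_right ?_ (mul_nonneg hD.le hA.le)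
        rw [hTT]
        have := mul_le_mul_of_nonneg_left hlow hK0
        linarith
    _ = _ := by
        rw [e4]
        push_cast
        ring

theorem t_STAR (hC : S_CHU) : S_STAR := by
  intro t m κ N ht hm hmκ hκ hN
  obtain ⟨t, rfl⟩ : ∃ t', t = t' + 1 := ⟨t - 1, by omega⟩
  by_cases h1 : m = 1
  · subst h1
    have h := star_one hC t κ N hκ hN
    have e1 : N + κ + (t + 1) - 1 = N + κ + t := by omega
    have e2 : t + 1 - 1 = t := rfl
    have e3 : (t + 1 + 1 - 1).choose 1 = t + 1 := by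
      rw [Nat.add_sub_cancel, Nat.choose_one_right]
    rw [e1, e2, e3, Nat.descFactorial_one]
    push_cast
    exact h
  · obtain ⟨m, rfl⟩ : ∃ m', m = m' + 2 := ⟨m - 2, by omega⟩
    obtain ⟨j, rfl⟩ : ∃ j, κ = m + 2 + j := ⟨κ - (m + 2), by omega⟩
    have h := star_two hC t m j N hN
    have e1 : N + (m + 2 + j) + (t + 1) - (m + 2) = N + j + t + 1 := by omega
    have e2 : t + 1 - 1 = t := rfl
    have e3 : t + 1 + (m + 2) - 1 = t + (m + 2) := by omega
    rw [e1, e2, e3]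
    push_cast at h ⊢
    exact h

end Pool.Agent.P8H46.TI
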