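import Pool.Agent.P8H39.TI.Stm6

/-!
# Project TI: package SUP
-/

set_option autoImplicit false

namespace Pool.Agent.P8H46.TI

open Finset Pool.Agent.P8H39.TI

theorem t_SUP (hGOT : S_GOT) : S_SUP := by
  intro n r t α h htr hn hα hdn
  have key : ∀ i : ℕ, ∀ T : Finset (Fin n), T.card = t → (T ∩ α).card = i → i < t → h T = 0 := by
    intro i
    induction i using Nat.strong_induction_on with
    | _ i ih =>
      intro T hT hTi hit
      obtain ⟨J, hJ⟩ : ∃ J : Finset (Fin n), J = T ∩ α := ⟨_, rfl⟩
      have hJα : J ⊆ α := by rw [hJ]; exact Finset.inter_subset_right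
      rw [← hJ] at hTi
      have hX : (αᶜ : Finset (Fin n)).card = n - r := by
        rw [Finset.card_compl, Fintype.card_fin, hα]
      have hS : T \ α ⊆ αᶜ := by
        intro a ha
        rw [Finset.mem_compl]
        exact (Finset.mem_sdiff.1 ha).2
      have hScard : (T \ α).card = t - i := by
        have h1 := Finset.card_sdiff_add_card_inter T α
        rw [← hJ] at h1
        omega
      have hTJS : J ∪ (T \ α) = T := by
        rw [hJ, Finset.union_comm]
        exact Finset.sdiff_union_inter T α
      have hcond : ∀ U, U ⊆ αᶜ → U.card = r - i →
          ∑ S ∈ powersetCard (t - i) U, (fun S => h (J ∪ S)) S = 0 := by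
        intro U hU hUc
        have hdisj : Disjoint J U := Finset.disjoint_left.2 fun a ha hb =>
          (Finset.mem_compl.1 (hU hb)) (hJα ha)
        have hβ : (J ∪ U).card = r := by
          rw [Finset.card_union_of_disjoint hdisj, hTi, hUc]
          omega
        have hβα : (J ∪ U) ∩ α = J := by
          ext a
          rw [Finset.mem_inter, Finset.mem_union]
          constructor
          · rintro ⟨h1 | h1, h2⟩
            · exact h1
            · exact absurd h2 (Finset.mem_compl.1 (hU h1))
          · intro h1
            exact ⟨Or.inl h1, hJα h1⟩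
        have h0 := hdn (J ∪ U) hβ (by rw [hβα, hTi]; exact hit)
        unfold dn at h0
        have h1 : ∑ T' ∈ (powersetCard t (J ∪ U)).filter (fun T' => J ⊆ T'), h T' = 0 := by
          rw [← h0, Finset.sum_filter]
          refine Finset.sum_congr rfl fun T' hT' => ?_
          split_ifs with hc
          · rfl
          · rw [Finset.mem_powersetCard] at hT'
            have h2 : (T' ∩ α).card < i := by
              rw [← hTi]
              apply Finset.card_lt_card
              refine ⟨fun a ha => ?_, fun hJT => hc (hJT.trans Finset.inter_subset_left)⟩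
              rw [Finset.mem_inter] at ha
              rw [← hβα, Finset.mem_inter]
              exact ⟨hT'.1 ha.1, ha.2⟩
            exact (ih _ h2 T' hT'.2 rfl (by omega)).symm
        rw [← h1]
        refine Finset.sum_nbij' (fun S => J ∪ S) (fun T' => T' \ J) ?_ ?_ ?_ ?_ ?_
        · intro S hSm
          rw [Finset.mem_powersetCard] at hSm
          rw [Finset.mem_filter, Finset.mem_powersetCard]
          refine ⟨⟨Finset.union_subset_union_right hSm.1, ?_⟩, Finset.subset_union_left⟩
          rw [Finset.card_union_of_disjoint (Finset.disjoint_of_subset_right hSm.1 hdisj), hTi,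
            hSm.2]
          omega
        · intro T' hT'
          rw [Finset.mem_filter, Finset.mem_powersetCard] at hT'
          rw [Finset.mem_powersetCard]
          refine ⟨fun a ha => ?_, ?_⟩
          · rw [Finset.mem_sdiff] at ha
            exact (Finset.mem_union.1 (hT'.1.1 ha.1)).resolve_left ha.2
          · rw [Finset.card_sdiff_of_subset hT'.2, hT'.1.2, hTi]
        · intro S hSm
          rw [Finset.mem_powersetCard] at hSm
          show (J ∪ S) \ J = S
          rw [Finset.union_sdiff_left]
          exact Finset.sdiff_eq_self_of_disjoint
            (Finset.disjoint_of_subset_right hSm.1 hdisj).symm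
        · intro T' hT'
          rw [Finset.mem_filter] at hT'
          show J ∪ (T' \ J) = T'
          exact Finset.union_sdiff_of_subset hT'.2
        · intro S _
          rfl
      have hgot := hGOT n (t - i) (r - i) αᶜ (fun S => h (J ∪ S)) (by omega)
        (by rw [hX]; omega) hcond (T \ α) hS hScard
      have hgot' : h (J ∪ (T \ α)) = 0 := hgot
      rwa [hTJS] at hgot'
  intro T hT hTα
  refine key _ T hT rfl ?_
  rw [← hT]
  apply Finset.card_lt_card
  exact ⟨Finset.inter_subset_left, fun h1 => hTα (h1.trans Finset.inter_subset_right)⟩

end Pool.Agent.P8H46.TI
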